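import Mathlib
import Pool.Agent.Q96.CubePoincare
import Pool.Agent.Q96.CosOrtho

/-!
# The optimal Neumann monotonicity constants of convex domains of `ℝ³` stay below `7/10`
-/

set_option autoImplicit false

open MeasureTheory Set Filter Topology Q96.CubePoincare Q96.CosOrtho

namespace Pool.Agent.Results.MP_382727_an.LimitNotOne

/-- there is a `(k+1)`-dimensional space of `C¹` functions on `Ω` with Rayleigh quotients at most
`r` -/
def Admissible (Ω : Set (ℝ × ℝ × ℝ)) (k : ℕ) (r : ℝ) : Prop :=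
  ∃ V : Submodule ℝ (ℝ × ℝ × ℝ → ℝ), Module.finrank ℝ V = k + 1 ∧ (∀ f ∈ V, ContDiff ℝ 1 f) ∧
    (∀ f ∈ V, (∀ z ∈ Ω, f z = 0) → f = 0) ∧
      ∀ f ∈ V, ∫ z in Ω, grad3 f z ≤ r * ∫ z in Ω, f z ^ 2

/-- the Neumann eigenvalue `μ_k(Ω)` (`μ_0 = 0` being the trivial one) through the min-max
principle -/
noncomputable def mu (Ω : Set (ℝ × ℝ × ℝ)) (k : ℕ) : ℝ := sInf {r | Admissible Ω k r}

/-- bounded convex domains of `ℝ³` -/
def IsConvexDomain (Ω : Set (ℝ × ℝ × ℝ)) : Prop :=
  Ω.Nonempty ∧ Bornology.IsBounded Ω ∧ IsOpen Ω ∧ Convex ℝ Ω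

/-- the optimal constant `α_{k,3}` -/
noncomputable def alpha (k : ℕ) : ℝ :=
  sInf {ρ | ∃ Ω₁ Ω₂ : Set (ℝ × ℝ × ℝ), IsConvexDomain Ω₁ ∧ IsConvexDomain Ω₂ ∧ Ω₁ ⊆ Ω₂ ∧
    ρ = mu Ω₁ k / mu Ω₂ k}

lemma integral_sq_pos {Ω : Set (ℝ × ℝ × ℝ)} (hΩ : IsOpen Ω) {f : ℝ × ℝ × ℝ → ℝ}
    (hf : Continuous f) (hint : IntegrableOn (fun z => f z ^ 2) Ω) (hne : ¬ ∀ z ∈ Ω, f z = 0) :
    0 < ∫ z in Ω, f z ^ 2 := by
  rw [setIntegral_pos_iff_support_of_nonneg_ae (Eventually.of_forall fun z => sq_nonneg _) hint]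
  have hex : ∃ z ∈ Ω, f z ≠ 0 := by
    by_contra h
    exact hne fun z hz => by
      by_contra h2
      exact h ⟨z, hz, h2⟩
  obtain ⟨z, hz, hfz⟩ := hex
  have hopen : IsOpen (Function.support (fun z => f z ^ 2) ∩ Ω) :=
    ((hf.pow 2).isOpen_support).inter hΩ
  exact hopen.measure_pos _ ⟨z, by simpa using hfz, hz⟩

lemma integrableOn_bdd {Ω : Set (ℝ × ℝ × ℝ)} (hb : Bornology.IsBounded Ω) {f : ℝ × ℝ × ℝ → ℝ}
    (hf : Continuous f) : IntegrableOn f Ω := by
  have h1 : IsCompact (closure Ω) := Metric.isCompact_of_isClosed_isBounded isClosed_closure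
    hb.closure
  exact (hf.continuousOn.integrableOn_compact h1).mono_set subset_closure

lemma adm_nonneg {Ω : Set (ℝ × ℝ × ℝ)} (hΩ : IsConvexDomain Ω) {k : ℕ} {r : ℝ}
    (hr : Admissible Ω k r) : 0 ≤ r := by
  obtain ⟨V, hdim, hC1, hinj, hray⟩ := hr
  have hfd : FiniteDimensional ℝ V := FiniteDimensional.of_finrank_pos (by omega)
  have hnt : Nontrivial V := Module.nontrivial_of_finrank_pos (R := ℝ) (by omega)
  obtain ⟨f, hf0⟩ := exists_ne (0 : V)
  have hfC := hC1 _ f.2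
  have hpos : 0 < ∫ z in Ω, f.1 z ^ 2 := by
    apply integral_sq_pos hΩ.2.2.1 hfC.continuous (integrableOn_bdd hΩ.2.1 (hfC.continuous.pow 2))
    intro h
    exact hf0 (Subtype.ext (hinj _ f.2 h))
  have h1 := hray f.1 f.2
  have h2 : 0 ≤ ∫ z in Ω, grad3 f.1 z := integral_nonneg fun z => grad3_nonneg _ _
  by_contra hr
  nlinarith [not_le.mp hr]

lemma mu_nonneg {Ω : Set (ℝ × ℝ × ℝ)} (hΩ : IsConvexDomain Ω) (k : ℕ) : 0 ≤ mu Ω k :=
  Real.sInf_nonneg fun _ hr => adm_nonneg hΩ hr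

/-! ### the outer domain -/

/-- the outer domain `(0,k) × (0,1)²` -/
def Om2 (k : ℕ) : Set (ℝ × ℝ × ℝ) := Ioo (0 : ℝ) k ×ˢ (Ioo (0 : ℝ) 1 ×ˢ Ioo (0 : ℝ) 1)

lemma Om2_dom {k : ℕ} (hk : 1 ≤ k) : IsConvexDomain (Om2 k) := by
  have hk' : (0 : ℝ) < k := by exact_mod_cast hk
  refine ⟨⟨((k : ℝ) / 2, 1 / 2, 1 / 2), ⟨by positivity, by linarith⟩, ⟨by norm_num, by norm_num⟩,
    by norm_num, by norm_num⟩, ?_, ?_, ?_⟩
  · exact ((isCompact_Icc (a := (0 : ℝ)) (b := k)).prod ((isCompact_Icc (a := (0 : ℝ))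
      (b := 1)).prod (isCompact_Icc (a := (0 : ℝ)) (b := 1)))).isBounded.subset
      (prod_mono Ioo_subset_Icc_self (prod_mono Ioo_subset_Icc_self Ioo_subset_Icc_self))
  · exact isOpen_Ioo.prod (isOpen_Ioo.prod isOpen_Ioo)
  · exact (convex_Ioo _ _).prod ((convex_Ioo _ _).prod (convex_Ioo _ _))

lemma Om2_integral {k : ℕ} (hk : 1 ≤ k) {g : ℝ × ℝ × ℝ → ℝ} (hg : Continuous g) :
    ∫ p in Om2 k, g p = ∫ x in (0 : ℝ)..k, sect g x := by
  have hint : IntegrableOn g (Om2 k) := integrableOn_bdd (Om2_dom hk).2.1 hg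
  unfold Om2 at hint ⊢
  rw [Measure.volume_eq_prod] at hint ⊢
  rw [setIntegral_prod _ hint, intervalIntegral.integral_of_le (Nat.cast_nonneg k),
    integral_Ioc_eq_integral_Ioo]
  apply setIntegral_congr_fun measurableSet_Ioo
  intro x _
  simp only
  have hgx : Continuous fun q : ℝ × ℝ => g (x, q) := hg.comp (by fun_prop)
  have hint2 : IntegrableOn (fun q : ℝ × ℝ => g (x, q)) (Ioo (0 : ℝ) 1 ×ˢ Ioo (0 : ℝ) 1)
      (volume.prod volume) := by
    rw [← Measure.volume_eq_prod]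
    exact (hgx.continuousOn.integrableOn_compact ((isCompact_Icc (a := (0 : ℝ))
      (b := 1)).prod (isCompact_Icc (a := (0 : ℝ)) (b := 1)))).mono_set
      (prod_mono Ioo_subset_Icc_self Ioo_subset_Icc_self)
  rw [Measure.volume_eq_prod, setIntegral_prod _ hint2]
  unfold sect
  rw [intervalIntegral.integral_of_le zero_le_one, integral_Ioc_eq_integral_Ioo]
  apply setIntegral_congr_fun measurableSet_Ioo
  intro y _
  simp only
  rw [intervalIntegral.integral_of_le zero_le_one, integral_Ioc_eq_integral_Ioo]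

lemma lower {k : ℕ} (hk : 1 ≤ k) {r : ℝ} (hr : Admissible (Om2 k) k r) : 9 ≤ r := by
  obtain ⟨V, hdim, hC1, hinj, hray⟩ := hr
  have hsadd : ∀ f g : ℝ × ℝ × ℝ → ℝ, Continuous f → Continuous g → ∀ x,
      sect (f + g) x = sect f x + sect g x := by
    intro f g hf hg x
    unfold sect
    rw [← intervalIntegral.integral_add]
    · apply intervalIntegral.integral_congr
      intro y _
      simp only
      rw [← intervalIntegral.integral_add]
      · rfl
      · exact (hf.comp (by fun_prop : Continuous fun z : ℝ => ((x, y, z) : ℝ × ℝ × ℝ))).intervalIntegrable _ _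
      · exact (hg.comp (by fun_prop : Continuous fun z : ℝ => ((x, y, z) : ℝ × ℝ × ℝ))).intervalIntegrable _ _
    · exact ((cont_in hf).comp
        (by fun_prop : Continuous fun y : ℝ => ((x, y) : ℝ × ℝ))).intervalIntegrable _ _
    · exact ((cont_in hg).comp
        (by fun_prop : Continuous fun y : ℝ => ((x, y) : ℝ × ℝ))).intervalIntegrable _ _
  have hssmul : ∀ (a : ℝ) (f : ℝ × ℝ × ℝ → ℝ) (x : ℝ), sect (a • f) x = a * sect f x := by
    intro a f x
    unfold sect
    rw [← intervalIntegral.integral_const_mul]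
    apply intervalIntegral.integral_congr
    intro y _
    simp only
    rw [← intervalIntegral.integral_const_mul]
    rfl
  let L : V →ₗ[ℝ] (Fin k → ℝ) :=
    { toFun := fun f i => ∫ x in ((i : ℕ) : ℝ)..((i : ℕ) + 1 : ℕ), sect f.1 x
      map_add' := fun f g => by
        funext i
        simp only [Pi.add_apply]
        rw [← intervalIntegral.integral_add
          ((cont_sect (hC1 _ f.2).continuous).intervalIntegrable _ _)
          ((cont_sect (hC1 _ g.2).continuous).intervalIntegrable _ _)]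
        apply intervalIntegral.integral_congr
        intro x _
        exact hsadd _ _ (hC1 _ f.2).continuous (hC1 _ g.2).continuous x
      map_smul' := fun a f => by
        funext i
        simp only [Pi.smul_apply, smul_eq_mul, RingHom.id_apply]
        rw [← intervalIntegral.integral_const_mul]
        apply intervalIntegral.integral_congr
        intro x _
        exact hssmul a _ x }
  have hfd : FiniteDimensional ℝ V := FiniteDimensional.of_finrank_pos (by omega)
  have hker : LinearMap.ker L ≠ ⊥ := by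
    apply LinearMap.ker_ne_bot_of_finrank_lt
    rw [hdim]; simp
  obtain ⟨f, hf, hf0⟩ := (Submodule.ne_bot_iff _).mp hker
  have hfC := hC1 _ f.2
  have h1 := rod f.1 hfC k (by
    intro i hi
    have := congrFun (LinearMap.mem_ker.mp hf) ⟨i, hi⟩
    exact this)
  rw [← Om2_integral hk (g := fun p => f.1 p ^ 2) (hfC.continuous.pow 2),
    ← Om2_integral hk (continuous_grad3 hfC)] at h1
  have h2 := hray f.1 f.2
  have hpos : 0 < ∫ z in Om2 k, f.1 z ^ 2 := by
    apply integral_sq_pos (Om2_dom hk).2.2.1 hfC.continuous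
      (integrableOn_bdd (Om2_dom hk).2.1 (hfC.continuous.pow 2))
    intro h
    exact hf0 (Subtype.ext (hinj _ f.2 h))
  by_contra hcon
  nlinarith [not_le.mp hcon]

/-! ### test functions on `(0,k) × D` -/

lemma integrableOn_bdd2 {D : Set (ℝ × ℝ)} (hb : Bornology.IsBounded D) {f : ℝ × ℝ → ℝ}
    (hf : Continuous f) : IntegrableOn f D := by
  have h1 : IsCompact (closure D) := Metric.isCompact_of_isClosed_isBounded isClosed_closure
    hb.closure
  exact (hf.continuousOn.integrableOn_compact h1).mono_set subset_closure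

lemma cyl_bdd {k : ℕ} {D : Set (ℝ × ℝ)} (hb : Bornology.IsBounded D) :
    Bornology.IsBounded (Ioo (0 : ℝ) k ×ˢ D) := (Metric.isBounded_Ioo 0 (k : ℝ)).prod hb

lemma sq_int {m k : ℕ} {D : Set (ℝ × ℝ)} (hb : Bornology.IsBounded D)
    (a : Fin m → ℝ) (A : Fin m → ℝ → ℝ) (B : Fin m → ℝ × ℝ → ℝ) (hA : ∀ i, Continuous (A i))
    (hB : ∀ i, Continuous (B i)) (hdiag : ∀ i j, i ≠ j →
      (∫ x in (0 : ℝ)..k, A i x * A j x) * (∫ q in D, B i q * B j q) = 0) :
    ∫ z in Ioo (0 : ℝ) k ×ˢ D, (∑ i, a i * (A i z.1 * B i z.2)) ^ 2 =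
      ∑ i, a i ^ 2 * ((∫ x in (0 : ℝ)..k, A i x * A i x) * ∫ q in D, B i q * B i q) := by
  have h1 : ∀ z : ℝ × ℝ × ℝ, (∑ i, a i * (A i z.1 * B i z.2)) ^ 2 =
      ∑ i, ∑ j, a i * a j * ((A i z.1 * A j z.1) * (B i z.2 * B j z.2)) := by
    intro z
    rw [sq, Finset.sum_mul_sum]
    exact Finset.sum_congr rfl fun i _ => Finset.sum_congr rfl fun j _ => by ring
  have hcont : ∀ i j, Continuous fun z : ℝ × ℝ × ℝ =>
      a i * a j * ((A i z.1 * A j z.1) * (B i z.2 * B j z.2)) := fun i j => by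
    have h1 := hA i
    have h2 := hA j
    have h3 := hB i
    have h4 := hB j
    fun_prop
  have hint : ∀ i j, IntegrableOn (fun z : ℝ × ℝ × ℝ =>
      a i * a j * ((A i z.1 * A j z.1) * (B i z.2 * B j z.2))) (Ioo (0 : ℝ) k ×ˢ D) := fun i j =>
    integrableOn_bdd (cyl_bdd hb) (hcont i j)
  have hval : ∀ i j, ∫ z in Ioo (0 : ℝ) k ×ˢ D,
      a i * a j * ((A i z.1 * A j z.1) * (B i z.2 * B j z.2)) =
        a i * a j * ((∫ x in (0 : ℝ)..k, A i x * A j x) * ∫ q in D, B i q * B j q) := by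
    intro i j
    rw [MeasureTheory.integral_const_mul, Measure.volume_eq_prod,
      setIntegral_prod_mul (fun x => A i x * A j x) (fun q => B i q * B j q),
      intervalIntegral.integral_of_le (Nat.cast_nonneg k), integral_Ioc_eq_integral_Ioo]
  simp_rw [h1]
  rw [integral_finsetSum _ fun i _ => integrable_finsetSum _ fun j _ => hint i j]
  apply Finset.sum_congr rfl
  intro i _
  rw [integral_finsetSum _ fun j _ => hint i j]
  rw [Finset.sum_eq_single i]
  · rw [hval]; ring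
  · intro j _ hj
    rw [hval, hdiag i j (Ne.symm hj), mul_zero]
  · intro h; exact absurd (Finset.mem_univ i) h

/-- the length of the inner domain in the direction `y + z` -/
noncomputable def ell : ℝ := 19 / 10

lemma ell_pos : 0 < ell := by unfold ell; norm_num

/-- the test functions -/
noncomputable def tf (k : ℕ) (n t : ℕ) (z : ℝ × ℝ × ℝ) : ℝ :=
  cj k n z.1 * cj ell t (z.2.1 + z.2.2 - 1 / 20)

lemma contDiff_tf (k n t : ℕ) : ContDiff ℝ 1 (tf k n t) := by
  unfold tf cj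
  fun_prop

/-- the space of the test functions -/
noncomputable def test (k : ℕ) (n t : Fin (k + 1) → ℕ) :
    (Fin (k + 1) → ℝ) →ₗ[ℝ] (ℝ × ℝ × ℝ → ℝ) where
  toFun c := fun z => ∑ j, c j * tf k (n j) (t j) z
  map_add' c d := by
    funext z
    simp [add_mul, Finset.sum_add_distrib]
  map_smul' a c := by
    funext z
    simp [Finset.mul_sum, mul_assoc]

lemma contDiff_test (k : ℕ) (n t : Fin (k + 1) → ℕ) (c : Fin (k + 1) → ℝ) :
    ContDiff ℝ 1 (test k n t c) := by
  have : test k n t c = fun z : ℝ × ℝ × ℝ => ∑ j, c j * tf k (n j) (t j) z := rfl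
  rw [this]
  exact ContDiff.sum fun j _ => contDiff_const.mul (contDiff_tf k (n j) (t j))

lemma hasDerivAt_cj (L : ℝ) (j : ℕ) (x : ℝ) :
    HasDerivAt (cj L j) (-(j * Real.pi / L) * sj L j x) x := by
  unfold cj sj
  have h1 : HasDerivAt (fun x : ℝ => j * Real.pi * x / L) (j * Real.pi / L) x := by
    have := ((hasDerivAt_id x).const_mul (j * Real.pi)).div_const L
    simpa using this
  have h2 := h1.cos
  refine h2.congr_deriv ?_
  ring

lemma grad3_test (k : ℕ) (n t : Fin (k + 1) → ℕ) (c : Fin (k + 1) → ℝ) (z : ℝ × ℝ × ℝ) :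
    grad3 (test k n t c) z =
      (∑ j, (c j * -(n j * Real.pi / k)) * (sj k (n j) z.1 * cj ell (t j) (z.2.1 + z.2.2 - 1 / 20)))
        ^ 2 + 2 * (∑ j, (c j * -(t j * Real.pi / ell)) * (cj k (n j) z.1 *
          sj ell (t j) (z.2.1 + z.2.2 - 1 / 20))) ^ 2 := by
  obtain ⟨x, y, w⟩ := z
  have hC := contDiff_test k n t c
  have hx := (hdx _ hC x y w).unique (f₁' := ∑ j, (c j * -(n j * Real.pi / k)) *
      (sj k (n j) x * cj ell (t j) (y + w - 1 / 20))) (by
    have := HasDerivAt.fun_sum (u := (Finset.univ : Finset (Fin (k + 1))))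
      (fun j _ => ((hasDerivAt_cj k (n j) x).mul_const (cj ell (t j) (y + w - 1 / 20))).const_mul
        (c j))
    refine this.congr_deriv ?_
    exact Finset.sum_congr rfl fun j _ => by ring)
  have hu : HasDerivAt (fun y : ℝ => y + w - 1 / 20) 1 y := by
    simpa using ((hasDerivAt_id y).add_const w).sub_const (1 / 20)
  have hv : HasDerivAt (fun w : ℝ => y + w - 1 / 20) 1 w := by
    simpa using ((hasDerivAt_id w).const_add y).sub_const (1 / 20)
  have hy := (hdy _ hC x y w).unique (f₁' := ∑ j, (c j * -(t j * Real.pi / ell)) *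
      (cj k (n j) x * sj ell (t j) (y + w - 1 / 20))) (by
    have := HasDerivAt.fun_sum (u := (Finset.univ : Finset (Fin (k + 1))))
      (fun j _ => (((hasDerivAt_cj ell (t j) (y + w - 1 / 20)).comp y hu).const_mul
        (cj k (n j) x)).const_mul (c j))
    refine this.congr_deriv ?_
    exact Finset.sum_congr rfl fun j _ => by ring)
  have hz := (hdz _ hC x y w).unique (f₁' := ∑ j, (c j * -(t j * Real.pi / ell)) *
      (cj k (n j) x * sj ell (t j) (y + w - 1 / 20))) (by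
    have := HasDerivAt.fun_sum (u := (Finset.univ : Finset (Fin (k + 1))))
      (fun j _ => (((hasDerivAt_cj ell (t j) (y + w - 1 / 20)).comp w hv).const_mul
        (cj k (n j) x)).const_mul (c j))
    refine this.congr_deriv ?_
    exact Finset.sum_congr rfl fun j _ => by ring)
  unfold grad3
  rw [hx, hy, hz]
  ring

lemma adm_prod {k : ℕ} (hk : 1 ≤ k) {D : Set (ℝ × ℝ)} (hDo : IsOpen D)
    (hDb : Bornology.IsBounded D) {b lam : ℝ} (hb : 0 < b) (n t : Fin (k + 1) → ℕ)
    (hinj : ∀ i j, n i = n j → t i = t j → i = j)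
    (hcc : ∀ i j, ∫ q in D, cj ell (t i) (q.1 + q.2 - 1 / 20) * cj ell (t j) (q.1 + q.2 - 1 / 20) =
      if t i = t j then b * nrm ell (t j) else 0)
    (hss : ∀ i j, ∫ q in D, sj ell (t i) (q.1 + q.2 - 1 / 20) * sj ell (t j) (q.1 + q.2 - 1 / 20) =
      if t i = t j ∧ t i ≠ 0 then b * (ell / 2) else 0)
    (hlam : ∀ i, (n i * Real.pi / k) ^ 2 + 2 * (t i * Real.pi / ell) ^ 2 ≤ lam) :
    Admissible (Ioo (0 : ℝ) k ×ˢ D) k lam := by
  have hk' : (0 : ℝ) < k := by exact_mod_cast hk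
  have hcu : ∀ j : ℕ, Continuous fun q : ℝ × ℝ => cj ell j (q.1 + q.2 - 1 / 20) := fun j =>
    (continuous_cj ell j).comp (by fun_prop)
  have hsu : ∀ j : ℕ, Continuous fun q : ℝ × ℝ => sj ell j (q.1 + q.2 - 1 / 20) := fun j =>
    (continuous_sj ell j).comp (by fun_prop)
  have hlam0 : 0 ≤ lam := le_trans (by positivity) (hlam 0)
  set N : (Fin (k + 1) → ℝ) → ℝ := fun c =>
    ∑ j : Fin (k + 1), c j ^ 2 * (nrm k (n j) * (b * nrm ell (t j))) with hN
  have hw : ∀ j, 0 < nrm k (n j) * (b * nrm ell (t j)) := fun j =>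
    mul_pos (nrm_pos hk' _) (mul_pos hb (nrm_pos ell_pos _))
  have hN0 : ∀ c, 0 ≤ N c := fun c =>
    Finset.sum_nonneg fun j _ => mul_nonneg (sq_nonneg _) (hw j).le
  have hNz : ∀ c, N c = 0 → c = 0 := by
    intro c h2
    simp only [hN] at h2
    rw [Finset.sum_eq_zero_iff_of_nonneg (fun j _ => mul_nonneg (sq_nonneg _) (hw j).le)] at h2
    funext j
    have h3 := h2 j (Finset.mem_univ j)
    rcases mul_eq_zero.mp h3 with h4 | h4
    · simpa using h4
    · exact absurd h4 (hw j).ne'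
  -- the mass
  have hmass : ∀ c, ∫ z in Ioo (0 : ℝ) k ×ˢ D, test k n t c z ^ 2 = N c := by
    intro c
    have h1 := sq_int (k := k) hDb c (fun j => cj k (n j)) (fun j q =>
      cj ell (t j) (q.1 + q.2 - 1 / 20)) (fun j => continuous_cj k _) (fun j => hcu _) (by
        intro i j hij
        rw [integral_cj_mul hk', hcc]
        by_cases h1 : n i = n j
        · have h2 : t i ≠ t j := fun h => hij (hinj i j h1 h)
          rw [if_neg h2, mul_zero]
        · rw [if_neg h1, zero_mul])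
    have h2 : ∀ z : ℝ × ℝ × ℝ, test k n t c z ^ 2 = (∑ i, c i * (cj k (n i) z.1 *
      cj ell (t i) (z.2.1 + z.2.2 - 1 / 20))) ^ 2 := fun z => rfl
    simp_rw [h2]
    rw [h1]
    simp only [hN]
    apply Finset.sum_congr rfl
    intro i _
    rw [integral_cj_mul hk', hcc, if_pos rfl, if_pos rfl]
  -- the energy
  have hen : ∀ c, ∫ z in Ioo (0 : ℝ) k ×ˢ D, grad3 (test k n t c) z ≤ lam * N c := by
    intro c
    have h1 := sq_int (k := k) hDb (fun j => c j * -(n j * Real.pi / k)) (fun j => sj k (n j))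
      (fun j q => cj ell (t j) (q.1 + q.2 - 1 / 20)) (fun j => continuous_sj k _)
      (fun j => hcu _) (by
        intro i j hij
        rw [integral_sj_mul hk', hcc]
        by_cases h1 : n i = n j
        · have h2 : t i ≠ t j := fun h => hij (hinj i j h1 h)
          rw [if_neg h2, mul_zero]
        · rw [if_neg (by tauto), zero_mul])
    have h2 := sq_int (k := k) hDb (fun j => c j * -(t j * Real.pi / ell)) (fun j => cj k (n j))
      (fun j q => sj ell (t j) (q.1 + q.2 - 1 / 20)) (fun j => continuous_cj k _)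
      (fun j => hsu _) (by
        intro i j hij
        rw [integral_cj_mul hk', hss]
        by_cases h1 : n i = n j
        · have h2 : t i ≠ t j := fun h => hij (hinj i j h1 h)
          rw [if_neg (show ¬ (t i = t j ∧ t i ≠ 0) from fun h => h2 h.1), mul_zero]
        · rw [if_neg h1, zero_mul])
    simp_rw [grad3_test]
    rw [integral_add, MeasureTheory.integral_const_mul, h1, h2, Finset.mul_sum,
      ← Finset.sum_add_distrib]
    · simp only [hN]
      rw [Finset.mul_sum]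
      apply Finset.sum_le_sum
      intro i _
      rw [integral_sj_mul hk', hcc, integral_cj_mul hk', hss, if_pos rfl, if_pos rfl]
      have e1 : (if n i = n i ∧ n i ≠ 0 then (k : ℝ) / 2 else 0) ≤ nrm k (n i) := by
        unfold nrm
        by_cases h : n i = 0
        · rw [if_neg (by tauto), if_pos h]; exact hk'.le
        · rw [if_pos ⟨rfl, h⟩, if_neg h]
      have e2 : (if t i = t i ∧ t i ≠ 0 then b * (ell / 2) else 0) ≤ b * nrm ell (t i) := by
        unfold nrm
        by_cases h : t i = 0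
        · rw [if_neg (by tauto), if_pos h]; exact (mul_pos hb ell_pos).le
        · rw [if_pos ⟨rfl, h⟩, if_neg h]
      have e3 := nrm_pos hk' (n i)
      have e4 := mul_pos hb (nrm_pos ell_pos (t i))
      calc (c i * -(n i * Real.pi / k)) ^ 2 * ((if n i = n i ∧ n i ≠ 0 then (k : ℝ) / 2 else 0) *
            (b * nrm ell (t i))) + 2 * ((c i * -(t i * Real.pi / ell)) ^ 2 * (nrm k (n i) *
            (if t i = t i ∧ t i ≠ 0 then b * (ell / 2) else 0))) ≤
          (c i * -(n i * Real.pi / k)) ^ 2 * (nrm k (n i) * (b * nrm ell (t i))) +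
            2 * ((c i * -(t i * Real.pi / ell)) ^ 2 * (nrm k (n i) * (b * nrm ell (t i)))) := by
            apply add_le_add
            · exact mul_le_mul_of_nonneg_left (mul_le_mul_of_nonneg_right e1 e4.le) (sq_nonneg _)
            · exact mul_le_mul_of_nonneg_left (mul_le_mul_of_nonneg_left
                (mul_le_mul_of_nonneg_left e2 e3.le) (sq_nonneg _)) (by norm_num)
        _ = ((n i * Real.pi / k) ^ 2 + 2 * (t i * Real.pi / ell) ^ 2) *
            (c i ^ 2 * (nrm k (n i) * (b * nrm ell (t i)))) := by ring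
        _ ≤ lam * (c i ^ 2 * (nrm k (n i) * (b * nrm ell (t i)))) :=
            mul_le_mul_of_nonneg_right (hlam i) (by positivity)
    · apply integrableOn_bdd (cyl_bdd hDb)
      apply Continuous.pow
      exact continuous_finsetSum _ fun j _ => continuous_const.mul
        (((continuous_sj k _).comp continuous_fst).mul ((hcu _).comp continuous_snd))
    · apply integrableOn_bdd (cyl_bdd hDb)
      apply Continuous.mul continuous_const
      apply Continuous.pow
      exact continuous_finsetSum _ fun j _ => continuous_const.mul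
        (((continuous_cj k _).comp continuous_fst).mul ((hsu _).comp continuous_snd))
  have hinj' : Function.Injective (test k n t) := by
    rw [injective_iff_map_eq_zero]
    intro c hc
    apply hNz
    rw [← hmass, hc]
    simp
  refine ⟨LinearMap.range (test k n t), ?_, ?_, ?_, ?_⟩
  · rw [LinearMap.finrank_range_of_inj hinj']
    simp
  · rintro _ ⟨c, rfl⟩
    exact contDiff_test k n t c
  · rintro _ ⟨c, rfl⟩ h
    have h1 : N c = 0 := by
      rw [← hmass, setIntegral_congr_fun (isOpen_Ioo.prod hDo).measurableSet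
        (g := fun _ => (0 : ℝ)) (fun z hz => by simp [h z hz])]
      simp
    rw [hNz c h1, map_zero]
  · rintro _ ⟨c, rfl⟩
    rw [hmass]
    exact hen c

/-! ### the inner domain -/

/-- the strip along the diagonal of the square -/
def D1 : Set (ℝ × ℝ) := {q | q.1 - q.2 ∈ Ioo (-1 / 20 : ℝ) (1 / 20) ∧
  q.1 + q.2 ∈ Ioo (1 / 20 : ℝ) (39 / 20)}

lemma D1_sub : D1 ⊆ Ioo (0 : ℝ) 1 ×ˢ Ioo (0 : ℝ) 1 := by
  rintro ⟨y, z⟩ ⟨⟨h1, h2⟩, h3, h4⟩
  simp only at h1 h2 h3 h4
  refine ⟨⟨?_, ?_⟩, ?_, ?_⟩ <;> simp only <;> linarith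

lemma D1_open : IsOpen D1 := by
  apply IsOpen.inter
  · exact isOpen_Ioo.preimage (continuous_fst.sub continuous_snd)
  · exact isOpen_Ioo.preimage (continuous_fst.add continuous_snd)

lemma D1_bdd : Bornology.IsBounded D1 :=
  ((Metric.isBounded_Ioo 0 (1 : ℝ)).prod (Metric.isBounded_Ioo 0 (1 : ℝ))).subset D1_sub

lemma D1_convex : Convex ℝ D1 := by
  intro p hp q hq a b ha hb hab
  obtain ⟨⟨h1, h2⟩, h3, h4⟩ := hp
  obtain ⟨⟨h5, h6⟩, h7, h8⟩ := hq
  refine ⟨⟨?_, ?_⟩, ?_, ?_⟩ <;>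
  simp only [Prod.fst_add, Prod.snd_add, Prod.smul_fst, Prod.smul_snd, smul_eq_mul] <;>
  · have hb' : b = 1 - a := by linarith
    subst hb'
    rcases eq_or_lt_of_le ha with h | h
    · subst h; linarith
    · nlinarith

/-- the sheared strip -/
def S1 : Set (ℝ × ℝ) := {p | 2 * p.1 - p.2 ∈ Ioo (-1 / 20 : ℝ) (1 / 20) ∧
  p.2 ∈ Ioo (1 / 20 : ℝ) (39 / 20)}

lemma S1_open : IsOpen S1 := by
  apply IsOpen.inter
  · exact isOpen_Ioo.preimage (by fun_prop : Continuous fun p : ℝ × ℝ => 2 * p.1 - p.2)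
  · exact isOpen_Ioo.preimage continuous_snd

lemma S1_bdd : Bornology.IsBounded S1 := by
  apply ((Metric.isBounded_Ioo (-5) (5 : ℝ)).prod (Metric.isBounded_Ioo (-5) (5 : ℝ))).subset
  rintro ⟨y, z⟩ ⟨⟨h1, h2⟩, h3, h4⟩
  simp only at h1 h2 h3 h4
  refine ⟨⟨?_, ?_⟩, ?_, ?_⟩ <;> simp only <;> linarith

lemma strip_integral (h : ℝ → ℝ) (hh : Continuous h) :
    ∫ q in D1, h (q.1 + q.2 - 1 / 20) = (1 / 20) * ∫ u in (0 : ℝ)..ell, h u := by
  have hpre : D1 = (fun z : ℝ × ℝ => (z.1, z.1 + z.2)) ⁻¹' S1 := by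
    ext q
    simp only [D1, S1, mem_ofPred_eq, mem_preimage]
    rw [show 2 * q.1 - (q.1 + q.2) = q.1 - q.2 by ring]
  have h1 : ∫ q in D1, h (q.1 + q.2 - 1 / 20) = ∫ p in S1, h (p.2 - 1 / 20) := by
    rw [hpre, Measure.volume_eq_prod]
    exact (measurePreserving_prod_add (volume : Measure ℝ)
      (volume : Measure ℝ)).setIntegral_preimage_emb
      (MeasurableEquiv.shearAddRight ℝ).measurableEmbedding (fun p : ℝ × ℝ => h (p.2 - 1 / 20)) S1
  have hint : IntegrableOn (fun p : ℝ × ℝ => h (p.2 - 1 / 20)) S1 :=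
    integrableOn_bdd2 S1_bdd (hh.comp (by fun_prop))
  rw [h1, ← integral_indicator S1_open.measurableSet, Measure.volume_eq_prod]
  rw [← integrable_indicator_iff S1_open.measurableSet, Measure.volume_eq_prod] at hint
  rw [integral_prod_symm _ hint]
  have h2 : ∀ s : ℝ, ∫ y, S1.indicator (fun p : ℝ × ℝ => h (p.2 - 1 / 20)) (y, s) =
      (Ioo (1 / 20 : ℝ) (39 / 20)).indicator (fun s => (1 / 20) * h (s - 1 / 20)) s := by
    intro s
    by_cases hs : s ∈ Ioo (1 / 20 : ℝ) (39 / 20)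
    · rw [indicator_of_mem hs]
      have h3 : ∀ y, S1.indicator (fun p : ℝ × ℝ => h (p.2 - 1 / 20)) (y, s) =
          (Ioo ((s - 1 / 20) / 2) ((s + 1 / 20) / 2)).indicator (fun _ => h (s - 1 / 20)) y := by
        intro y
        by_cases hy : (y, s) ∈ S1
        · rw [indicator_of_mem hy, indicator_of_mem]
          obtain ⟨⟨h5, h6⟩, _⟩ := hy
          simp only at h5 h6
          constructor <;> linarith
        · rw [indicator_of_notMem hy, indicator_of_notMem]
          rintro ⟨h5, h6⟩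
          apply hy
          refine ⟨⟨?_, ?_⟩, hs⟩ <;> simp only <;> linarith
      simp_rw [h3]
      rw [integral_indicator measurableSet_Ioo, setIntegral_const, smul_eq_mul]
      congr 1
      rw [Measure.real, Real.volume_Ioo, ENNReal.toReal_ofReal (by linarith)]
      ring
    · rw [indicator_of_notMem hs]
      have h3 : ∀ y, S1.indicator (fun p : ℝ × ℝ => h (p.2 - 1 / 20)) (y, s) = 0 := by
        intro y
        rw [indicator_of_notMem]
        rintro ⟨_, h6⟩
        exact hs h6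
      simp_rw [h3]
      simp
  simp_rw [h2]
  rw [integral_indicator measurableSet_Ioo, ← integral_Ioc_eq_integral_Ioo,
    ← intervalIntegral.integral_of_le (by norm_num), intervalIntegral.integral_const_mul]
  have h3 : ∫ x in (1 / 20 : ℝ)..(39 / 20), h (x - 1 / 20) = ∫ u in (0 : ℝ)..ell, h u := by
    rw [intervalIntegral.integral_comp_sub_right]
    congr 1
    · norm_num
    · unfold ell; norm_num
  rw [h3]

/-- the inner domain -/
def Om1 (k : ℕ) : Set (ℝ × ℝ × ℝ) := Ioo (0 : ℝ) k ×ˢ D1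

lemma Om1_dom {k : ℕ} (hk : 1 ≤ k) : IsConvexDomain (Om1 k) := by
  have hk' : (0 : ℝ) < k := by exact_mod_cast hk
  refine ⟨⟨((k : ℝ) / 2, 1 / 2, 1 / 2), ⟨by positivity, by linarith⟩, ⟨?_, ?_⟩, ?_, ?_⟩, ?_, ?_, ?_⟩
  · norm_num
  · norm_num
  · norm_num
  · norm_num
  · exact cyl_bdd D1_bdd
  · exact isOpen_Ioo.prod D1_open
  · exact (convex_Ioo _ _).prod D1_convex

lemma pi_sq_lt : Real.pi ^ 2 < 9.87 := by
  have h1 := Real.pi_lt_d4
  have h2 := Real.pi_pos
  nlinarith

lemma adm_inner {k : ℕ} (hk : 1 ≤ k) : Admissible (Om1 k) k 6.2 := by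
  have hk' : (0 : ℝ) < k := by exact_mod_cast hk
  set J : ℕ := 3 * k / 4 with hJ
  have hJ4 : 4 * J ≤ 3 * k := by omega
  have hJ5 : 3 * k < 4 * J + 4 := by omega
  apply adm_prod hk D1_open D1_bdd (b := 1 / 20) (by norm_num)
    (fun j => if (j : ℕ) ≤ J then (j : ℕ) else (j : ℕ) - J - 1)
    (fun j => if (j : ℕ) ≤ J then 0 else 1)
  · intro i j h1 h2
    apply Fin.ext
    by_cases hi : (i : ℕ) ≤ J <;> by_cases hj : (j : ℕ) ≤ J
    · rwa [if_pos hi, if_pos hj] at h1
    · rw [if_pos hi, if_neg hj] at h2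
      exact absurd h2 (by norm_num)
    · rw [if_neg hi, if_pos hj] at h2
      exact absurd h2 (by norm_num)
    · rw [if_neg hi, if_neg hj] at h1
      omega
  · intro i j
    rw [strip_integral (fun u => cj ell _ u * cj ell _ u) ((continuous_cj _ _).mul
      (continuous_cj _ _)), integral_cj_mul ell_pos]
    split_ifs <;> simp
  · intro i j
    rw [strip_integral (fun u => sj ell _ u * sj ell _ u) ((continuous_sj _ _).mul
      (continuous_sj _ _)), integral_sj_mul ell_pos]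
    split_ifs <;> simp
  · intro i
    have hpi := pi_sq_lt
    have hpi0 := Real.pi_pos
    by_cases hi : (i : ℕ) ≤ J
    · rw [if_pos hi, if_pos hi]
      have h1 : ((i : ℕ) : ℝ) / k ≤ 3 / 4 := by
        rw [div_le_iff₀ hk']
        have h2 : 4 * (i : ℕ) ≤ 3 * k := by omega
        have h3 : (4 : ℝ) * ((i : ℕ) : ℝ) ≤ 3 * k := by exact_mod_cast h2
        linarith
      have h2 : (0 : ℝ) ≤ ((i : ℕ) : ℝ) / k := by positivity
      have h3 : (((i : ℕ) : ℝ) / k) ^ 2 ≤ (3 / 4) ^ 2 := pow_le_pow_left₀ h2 h1 2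
      have h4 : (((i : ℕ) : ℝ) * Real.pi / k) ^ 2 = (((i : ℕ) : ℝ) / k) ^ 2 * Real.pi ^ 2 := by
        ring
      rw [h4]
      have h5 : (((i : ℕ) : ℝ) / k) ^ 2 * Real.pi ^ 2 ≤ (3 / 4) ^ 2 * 9.87 :=
        mul_le_mul h3 hpi.le (by positivity) (by norm_num)
      simp only [CharP.cast_eq_zero, zero_mul, zero_div, ne_eq, OfNat.ofNat_ne_zero,
        not_false_eq_true, zero_pow, mul_zero, add_zero]
      norm_num at h5 ⊢
      linarith
    · rw [if_neg hi, if_neg hi]
      have h1 : (((i : ℕ) - J - 1 : ℕ) : ℝ) / k ≤ 1 / 4 := by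
        rw [div_le_iff₀ hk']
        have h2 : 4 * ((i : ℕ) - J - 1) ≤ k := by have := i.2; omega
        have h3 : (4 : ℝ) * (((i : ℕ) - J - 1 : ℕ) : ℝ) ≤ k := by exact_mod_cast h2
        linarith
      have h2 : (0 : ℝ) ≤ (((i : ℕ) - J - 1 : ℕ) : ℝ) / k := by positivity
      have h3 : ((((i : ℕ) - J - 1 : ℕ) : ℝ) / k) ^ 2 ≤ (1 / 4) ^ 2 := pow_le_pow_left₀ h2 h1 2
      have h4 : ((((i : ℕ) - J - 1 : ℕ) : ℝ) * Real.pi / k) ^ 2 =
          ((((i : ℕ) - J - 1 : ℕ) : ℝ) / k) ^ 2 * Real.pi ^ 2 := by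
        ring
      rw [h4]
      have h5 : ((((i : ℕ) - J - 1 : ℕ) : ℝ) / k) ^ 2 * Real.pi ^ 2 ≤ (1 / 4) ^ 2 * 9.87 :=
        mul_le_mul h3 hpi.le (by positivity) (by norm_num)
      have h6 : 2 * (((1 : ℕ) : ℝ) * Real.pi / ell) ^ 2 = (200 / 361) * Real.pi ^ 2 := by
        unfold ell
        push_cast
        ring
      rw [h6]
      norm_num at h5 hpi ⊢
      linarith

lemma adm_outer {k : ℕ} (hk : 1 ≤ k) : Admissible (Om2 k) k (Real.pi ^ 2) := by
  have hk' : (0 : ℝ) < k := by exact_mod_cast hk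
  have hvol : ∫ q in Ioo (0 : ℝ) 1 ×ˢ Ioo (0 : ℝ) 1, (1 : ℝ) = 1 := by
    rw [Measure.volume_eq_prod, setIntegral_const, Measure.real, Measure.prod_prod]
    simp
  apply adm_prod hk (isOpen_Ioo.prod isOpen_Ioo)
    ((Metric.isBounded_Ioo _ _).prod (Metric.isBounded_Ioo _ _)) (b := 1 / ell)
    (one_div_pos.mpr ell_pos) (fun j => (j : ℕ)) (fun _ => 0)
  · intro i j h1 _
    exact Fin.ext h1
  · intro i j
    have h1 : ∀ u : ℝ, cj ell 0 u = 1 := fun u => by simp [cj]
    simp_rw [h1, mul_one]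
    rw [hvol, if_pos trivial]
    have := ell_pos.ne'
    simp only [nrm, if_true]
    field_simp
  · intro i j
    have h1 : ∀ u : ℝ, sj ell 0 u = 0 := fun u => by simp [sj]
    simp_rw [h1, mul_zero]
    simp
  · intro i
    have h1 : ((i : ℕ) : ℝ) / k ≤ 1 := by
      rw [div_le_one hk']
      have h2 : (i : ℕ) ≤ k := by have := i.2; omega
      exact_mod_cast h2
    have h2 : (0 : ℝ) ≤ ((i : ℕ) : ℝ) / k := by positivity
    have h3 : (((i : ℕ) : ℝ) / k) ^ 2 ≤ 1 ^ 2 := pow_le_pow_left₀ h2 h1 2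
    have h4 : (((i : ℕ) : ℝ) * Real.pi / k) ^ 2 = (((i : ℕ) : ℝ) / k) ^ 2 * Real.pi ^ 2 := by
      ring
    rw [h4]
    simp only [CharP.cast_eq_zero, zero_mul, zero_div, ne_eq, OfNat.ofNat_ne_zero,
      not_false_eq_true, zero_pow, mul_zero, add_zero]
    have h5 : 0 ≤ Real.pi ^ 2 := sq_nonneg _
    nlinarith

/-- **Negative answer.** In dimension `3` one has `α_{k,3} ≤ 7/10` for all `k ≥ 1`, so the limit
is not `1`. -/
theorem result : (∀ k : ℕ, 1 ≤ k → alpha k ≤ 7 / 10) ∧ ¬ Tendsto alpha atTop (𝓝 1) := by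
  have hmain : ∀ k : ℕ, 1 ≤ k → alpha k ≤ 7 / 10 := by
    intro k hk
    have h1 : mu (Om1 k) k ≤ 6.2 :=
      csInf_le (s := {r | Admissible (Om1 k) k r}) ⟨0, fun r hr => adm_nonneg (Om1_dom hk) hr⟩
        (adm_inner hk)
    have h2 : 9 ≤ mu (Om2 k) k := le_csInf ⟨_, adm_outer hk⟩ fun r hr => lower hk hr
    have h3 : mu (Om1 k) k / mu (Om2 k) k ≤ 7 / 10 := by
      rw [div_le_iff₀ (by linarith)]
      norm_num at h1
      linarith
    refine le_trans ?_ h3
    refine csInf_le (s := {ρ | ∃ Ω₁ Ω₂ : Set (ℝ × ℝ × ℝ), IsConvexDomain Ω₁ ∧ IsConvexDomain Ω₂ ∧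
      Ω₁ ⊆ Ω₂ ∧ ρ = mu Ω₁ k / mu Ω₂ k}) ⟨0, ?_⟩ ⟨Om1 k, Om2 k, Om1_dom hk, Om2_dom hk,
        prod_mono (subset_refl _) D1_sub, rfl⟩
    rintro _ ⟨Ω₁, Ω₂, hΩ₁, hΩ₂, _, rfl⟩
    exact div_nonneg (mu_nonneg hΩ₁ k) (mu_nonneg hΩ₂ k)
  refine ⟨hmain, fun h => ?_⟩
  have h1 := le_of_tendsto h (eventually_atTop.mpr ⟨1, fun k hk => hmain k hk⟩)
  norm_num at h1

end Pool.Agent.Results.MP_382727_an.LimitNotOne
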